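import Pool.Agent.Helper73.Dn.Goals
import Mathlib

/-!
# Project DN (MP_70814c_an): packet KER
-/

set_option autoImplicit false

namespace Pool.Agent.Helper4.Dn

theorem s1 (x : ℝ) (K : ℕ) : ∑ j ∈ Finset.range (K + 1), (x - 2 * j) ^ 2 =
    (K + 1) * x ^ 2 - 2 * x * (K * (K + 1)) + 2 * (K * (K + 1) * (2 * K + 1)) / 3 := by
  induction K with
  | zero => simp
  | succ K ih =>
    rw [Finset.sum_range_succ, ih]
    push_cast
    ring

theorem s2 (x : ℝ) (K : ℕ) : ∑ j ∈ Finset.range (K + 1), (((j : ℝ) + 1) * (x - j)) ^ 2 =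
    x ^ 2 * ((K + 1) * (K + 2) * (2 * K + 3) / 6) -
    2 * x * (((K + 1) * (K + 2) / 2) ^ 2 - (K + 1) * (K + 2) * (2 * K + 3) / 6) +
    K * (K + 1) * (K + 2) * (3 * K ^ 2 + 6 * K + 1) / 15 := by
  induction K with
  | zero => norm_num
  | succ K ih =>
    rw [Finset.sum_range_succ, ih]
    push_cast
    ring

/-- packet KER -/
theorem ker : Pool.Agent.Helper73.Dn.Ker := by
  intro M
  rw [s1, s2]
  have hM : (0 : ℝ) ≤ M := Nat.cast_nonneg M
  have h : (0 : ℝ) ≤ M * (M + 1) * (M + 2) * (2 * M + 2) / 3 := by positivity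
  nlinarith [h]

end Pool.Agent.Helper4.Dn
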